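import Mathlib
import Pool.Agent.J4H37.WN.WpM
import Pool.Agent.Y536.SH.Full

set_option autoImplicit false

/-!
# Composed rectangles and reflections

For a set `T` of points let `R T = √(#T - 2) H - ∑_{i ∈ T} E i`, a class of self-intersection `-2`. If
`#T = 3` the reflection in `R T` comes from a quadratic transformation of the plane. For `#T = p + 2`
it comes from a birational involution of the weighted plane `(1, 1, p)`, and it acts on the classes
which are nef on the weighted plane at general points.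

Let `Composed` be the smallest relation which satisfies the nine rules of `Fits` (the starting library,
file `MP_d3e5c7_ag/RectangleClasses`: a rectangle with real sides is composed of squares by gluing and
area-preserving transformations) and the rule `reflect`: if the rectangle with the sides `p c` and `c`
is composed of squares with the sides `L j`, and the reflection of `√p c H - ∑ L j E (g j)` in some
`R T`, `#T = p + 2`, is `√p c' H - ∑ L' j E (g' j)`, then the rectangle with the sides `p c'` and `c'`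
is composed of squares with the sides `L' j`. So reflections for different `p` and the nine rules may
be used in any order. If the square with the side `c` is composed of squares with the sides `L j`, then
`c H - ∑ L j E j` is nef, of self-intersection zero.
-/

namespace Pool.Agent.Results.MP_70e04f_ag.ComposedReflections

open MvPolynomial Pool.Agent.TH167.SHDefs

/-- `h⁰ (D)` for the class `D = d H - ∑ w i E i`. -/
noncomputable def hZero {n : ℕ} (P : Fin n → Fin 2 → ℂ) (d : ℕ) (w : Fin n → ℕ) : ℤ :=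
  (Module.finrank ℂ ↥(sys P d w) : ℤ)

/-- The Euler characteristic. -/
def chi {n : ℕ} (d : ℕ) (w : Fin n → ℕ) : ℤ :=
  ((d + 2).choose 2 : ℤ) - ∑ i, ((w i + 1).choose 2 : ℤ)

/-- The property holds for all `n`-tuples of points outside some hypersurface. -/
def ForGeneral {n : ℕ} (p : (Fin n → Fin 2 → ℂ) → Prop) : Prop :=
  ∃ F : MvPolynomial (Fin n × Fin 2) ℂ, F ≠ 0 ∧ ∀ P : Fin n → Fin 2 → ℂ,
    eval (fun ij : Fin n × Fin 2 => P ij.1 ij.2) F ≠ 0 → p P

/-- The class `(d; w)` is standard. -/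
def Standard {n : ℕ} (d : ℕ) (w : Fin n → ℕ) : Prop :=
  ∀ i j l : Fin n, i ≠ j → i ≠ l → j ≠ l → w i + w j + w l ≤ d

/-- The intersection form; the pair `(c, L)` is the class `c H - ∑ L i E i`. -/
def cdot {n : ℕ} (a b : ℝ × (Fin n → ℝ)) : ℝ := a.1 * b.1 - ∑ i, a.2 i * b.2 i

/-- The class of the natural numbers `d` and `w i`. -/
def cl {n : ℕ} (d : ℕ) (w : Fin n → ℕ) : ℝ × (Fin n → ℝ) := (d, fun i => w i)

/-- The class `c H - ∑_{i ∈ T} E i`. -/
noncomputable def ind {n : ℕ} (c : ℝ) (T : Finset (Fin n)) : ℝ × (Fin n → ℝ) :=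
  (c, fun i => if i ∈ T then 1 else 0)

/-- The reflection `a ↦ a + (a · R) R` in the class `R = √(#T - 2) H - ∑_{i ∈ T} E i`. -/
noncomputable def refl {n : ℕ} (T : Finset (Fin n)) (a : ℝ × (Fin n → ℝ)) : ℝ × (Fin n → ℝ) :=
  a + cdot a (ind (Real.sqrt (T.card - 2)) T) • ind (Real.sqrt (T.card - 2)) T

/-- Finitely many of the reflections with `#T = s` carry `a` to `b`. -/
def Carries {n : ℕ} (s : ℕ) (a b : ℝ × (Fin n → ℝ)) : Prop :=
  Relation.ReflTransGen
    (fun a b : ℝ × (Fin n → ℝ) => ∃ T : Finset (Fin n), T.card = s ∧ b = refl T a) a b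

/-- The rectangle with the sides `b`, `h` is composed of squares with the sides in the list: the nine
rules of `Pool.Agent.TH366.RC.Fits` and the rule `reflect`. -/
inductive Composed : ℝ → ℝ → List ℝ → Prop
  | square (s : ℝ) : 0 < s → Composed s s [s]
  | join (b b' h : ℝ) (L L' : List ℝ) : Composed b h L → Composed b' h L' →
      Composed (b + b') h (L ++ L')
  | swap (b h : ℝ) (L : List ℝ) : Composed b h L → Composed h b L
  | perm (b h : ℝ) (L L' : List ℝ) : L.Perm L' → Composed b h L → Composed b h L'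
  | stretch (b h : ℝ) (L : List ℝ) (x : ℕ) : 0 < b → 0 < h → 1 ≤ x → h ≤ x * b →
      Composed (x * b) (h / x) L → Composed b h L
  | move (b h : ℝ) (L : List ℝ) (k y : ℕ) : 0 < b → 0 < h → 1 ≤ k → Nat.Coprime k y →
      Composed (k * b + y * h) (b * h / (k * b + y * h)) L → Composed b h L
  | squeeze (b h b' h' : ℝ) (L : List ℝ) : 0 < b → 0 < h → b * h = b' * h' → 2 * h' ≤ h →
      3 * h ≤ 2 * b → Composed b' h' L → Composed b h L
  | squeezeSquare (s b' h' : ℝ) (L : List ℝ) : 0 < s → s * s = b' * h' → 3 * h' ≤ s →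
      Composed b' h' L → Composed s s L
  | corner (b h b' l : ℝ) (k : ℕ) (L : List ℝ) : 0 < b → 0 < h → 0 < l → 1 ≤ k → 2 * l ≤ h →
      3 * h ≤ 2 * b → k * l ≤ 2 * b → k * l ^ 2 + b' * (h / 2) = b * h → Composed b' (h / 2) L →
      Composed b h (List.replicate k l ++ L)
  | reflect (p m : ℕ) (c c' : ℝ) (L L' : List ℝ) (g : Fin L.length → Fin m)
      (g' : Fin L'.length → Fin m) (T : Finset (Fin m)) : 1 ≤ p → T.card = p + 2 → 0 < c' →
      (∀ t ∈ L', 0 < t) → Function.Injective g → Function.Injective g' →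
      refl T (Real.sqrt p * c, Function.extend g L.get 0) =
        (Real.sqrt p * c', Function.extend g' L'.get 0) →
      Composed (p * c) c L → Composed (p * c') c' L'

/-- `N = c H - ∑ L j E (g j)`, `g` injective, where the square with the side `c` is composed of squares
with the sides `L j`. -/
def Whole {n : ℕ} (N : ℝ × (Fin n → ℝ)) : Prop :=
  ∃ (c : ℝ) (L : List ℝ) (g : Fin L.length → Fin n), Composed c c L ∧ Function.Injective g ∧
    N = (c, Function.extend g L.get 0)

/-- `N` is obtained by reflections with three points from the restriction to `n` points of a class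
`Whole N'` for `m` points. -/
def IsRay {n : ℕ} (N : ℝ × (Fin n → ℝ)) : Prop :=
  ∃ (m : ℕ) (N' : ℝ × (Fin m → ℝ)) (τ : Fin n → Fin m), Whole N' ∧ Function.Injective τ ∧
    Carries 3 (N'.1, fun i => N'.2 (τ i)) N

theorem special_of_ne {n : ℕ} {P : Fin n → Fin 2 → ℂ} {d : ℕ} {w : Fin n → ℕ} :
    hZero P d w ≠ max 0 (chi d w) ↔ Pool.Agent.TH167.SH.Special P d w := by
  unfold hZero Pool.Agent.TH167.SH.Special
  rw [Pool.Agent.TH167.SH.sys_eq]
  exact Iff.rfl

theorem cdot_ind {n : ℕ} (a : ℝ × (Fin n → ℝ)) (c : ℝ) (T : Finset (Fin n)) :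
    cdot a (ind c T) = a.1 * c - ∑ i ∈ T, a.2 i := by
  unfold cdot ind
  simp only [mul_ite, mul_one, mul_zero]
  rw [← Finset.sum_filter, Finset.filter_mem_eq_inter, Finset.univ_inter]

/-- The reflections with `p + 2` points in integral coordinates. -/
theorem refl_nat {n p k k' : ℕ} {L L' : Fin n → ℕ} {T : Finset (Fin n)} (hT : T.card = p + 2)
    (h1 : (k' : ℤ) = k + (p * k - ∑ i ∈ T, (L i : ℤ)))
    (h2 : ∀ i, (L' i : ℤ) = L i + if i ∈ T then (p * k - ∑ i ∈ T, (L i : ℤ)) else 0) :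
    refl T ((k : ℝ) * Real.sqrt p, fun i => (L i : ℝ)) =
      ((k' : ℝ) * Real.sqrt p, fun i => (L' i : ℝ)) := by
  have hc : Real.sqrt ((T.card : ℝ) - 2) = Real.sqrt p := by
    rw [hT]
    push_cast
    congr 1
    ring
  have hd : cdot ((k : ℝ) * Real.sqrt p, fun i => (L i : ℝ)) (ind (Real.sqrt p) T) =
      ((p * k - ∑ i ∈ T, (L i : ℤ) : ℤ) : ℝ) := by
    rw [cdot_ind]
    push_cast
    have h3 : Real.sqrt p * Real.sqrt p = p := Real.mul_self_sqrt (Nat.cast_nonneg _)
    rw [mul_assoc, h3]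
    ring
  unfold refl
  rw [hc, hd]
  have e1 : (k' : ℝ) = k + ((p * k - ∑ i ∈ T, (L i : ℤ) : ℤ) : ℝ) := by exact_mod_cast h1
  refine Prod.ext ?_ ?_
  · change (k : ℝ) * Real.sqrt p + _ * Real.sqrt p = _
    rw [e1]
    ring
  · funext i
    have e2 : (L' i : ℝ) = ((L i + if i ∈ T then (p * k - ∑ i ∈ T, (L i : ℤ)) else 0 : ℤ) : ℝ) := by
      rw [← h2 i]
      simp
    change (L i : ℝ) + _ * (if i ∈ T then (1 : ℝ) else 0) = (L' i : ℝ)
    rw [e2]
    push_cast
    split_ifs
    · ring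
    · ring

theorem refl_real {n p : ℕ} {c : ℝ} {L : Fin n → ℝ} {T : Finset (Fin n)} (hT : T.card = p + 2) :
    refl T (Real.sqrt p * c, L) = (Real.sqrt p * (c + (p * c - ∑ i ∈ T, L i)),
      fun l => L l + if l ∈ T then p * c - ∑ i ∈ T, L i else 0) := by
  have hc : Real.sqrt ((T.card : ℝ) - 2) = Real.sqrt p := by
    rw [hT]
    push_cast
    congr 1
    ring
  have hd : cdot (Real.sqrt p * c, L) (ind (Real.sqrt p) T) = p * c - ∑ i ∈ T, L i := by
    rw [cdot_ind]
    have h3 : Real.sqrt p * Real.sqrt p = p := Real.mul_self_sqrt (Nat.cast_nonneg _)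
    linear_combination c * h3
  unfold refl
  rw [hc, hd]
  refine Prod.ext ?_ ?_
  · change Real.sqrt p * c + _ * Real.sqrt p = _
    ring
  · funext i
    change L i + _ * (if i ∈ T then (1 : ℝ) else 0) = L i + (if i ∈ T then _ else 0)
    split_ifs
    · ring
    · ring

theorem Composed.fits {b h : ℝ} {L : List ℝ} (hF : Pool.Agent.TH366.RC.Fits b h L) :
    Composed b h L := by
  induction hF with
  | square s hs => exact .square s hs
  | join b b' h L L' _ _ ih ih' => exact .join b b' h L L' ih ih'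
  | swap b h L _ ih => exact .swap b h L ih
  | perm b h L L' hp _ ih => exact .perm b h L L' hp ih
  | stretch b h L x hb hh hx hxb _ ih => exact .stretch b h L x hb hh hx hxb ih
  | move b h L k y hb hh hk hc _ ih => exact .move b h L k y hb hh hk hc ih
  | squeeze b h b' h' L hb hh ha h2 h3 _ ih => exact .squeeze b h b' h' L hb hh ha h2 h3 ih
  | squeezeSquare s b' h' L hs ha h3 _ ih => exact .squeezeSquare s b' h' L hs ha h3 ih
  | corner b h b' l k L hb hh hl hk h2 h3 hkl ha _ ih =>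
    exact .corner b h b' l k L hb hh hl hk h2 h3 hkl ha ih

theorem reflect_data {m p : ℕ} (hp : 1 ≤ p) {c c' : ℝ} {y y' : Fin m → ℝ} {T : Finset (Fin m)}
    (hT : T.card = p + 2) (h : refl T (Real.sqrt p * c, y) = (Real.sqrt p * c', y')) :
    c' = c + (p * c - ∑ i ∈ T, y i) ∧
      ∀ l, y' l = y l + if l ∈ T then p * c - ∑ i ∈ T, y i else 0 := by
  rw [refl_real hT] at h
  have h1 := Prod.ext_iff.1 h
  simp only at h1
  have hpos : 0 < Real.sqrt p := Real.sqrt_pos.2 (by exact_mod_cast hp)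
  exact ⟨(mul_left_cancel₀ hpos.ne' h1.1).symm, fun l => (congrFun h1.2 l).symm⟩

open Pool.Agent.TH366.RC in
theorem Composed.sem {b h : ℝ} {L : List ℝ} (hF : Composed b h L) : Sem b h L := by
  induction hF with
  | square s hs => exact Sem.square hs
  | join b b' h L L' _ _ ih ih' => exact ih.join ih'
  | swap b h L _ ih => exact ih.swap
  | perm b h L L' hp _ ih => exact ih.perm hp
  | stretch b h L x hb hh hx hxb _ ih =>
    have hx' : (0 : ℝ) < x := by exact_mod_cast hx
    refine ih.change hb hh (by field_simp) fun w E hE hT => ?_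
    refine T.mul x hx ?_ ?_
    · rw [← mul_div_assoc, le_div_iff₀ hh]; linarith
    · have e : x * b / (h / x) = (x : ℝ) ^ 2 * (b / h) := by field_simp
      rw [e] at hT
      exact hT
  | move b h L k y hb hh hk hc _ ih =>
    have hk' : (0 : ℝ) < k := by exact_mod_cast hk
    have hy' : (0 : ℝ) ≤ y := Nat.cast_nonneg y
    have hpos : 0 < k * b + y * h := by positivity
    refine ih.change hb hh (by field_simp) fun w E hE hT => ?_
    refine T.move (by positivity) k y (Nat.isCoprime_iff_coprime.2 hc) hk ?_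
    have e : (k * b + y * h) / (b * h / (k * b + y * h)) = ((k : ℝ) * (b / h) + y) ^ 2 / (b / h) := by
      field_simp
    rw [e] at hT
    exact hT
  | squeeze b h b' h' L hb hh ha h2 h3 _ ih =>
    obtain ⟨hb', hh', -⟩ := id ih
    refine ih.change hb hh ha fun w E hE hT => ?_
    refine T.down hE ?_ ?_ hT
    · rw [← mul_div_assoc, le_div_iff₀ hh]; linarith
    · have e : 4 * (b / h) = 4 * b / h := by ring
      rw [e, div_le_div_iff₀ hh hh']
      have e2 : h' * (4 * b * h') ≤ h' * (b' * h) := by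
        have e3 : h' * (b' * h) = b * h * h := by rw [ha]; ring
        rw [e3]
        have h4 : (2 * h') * (2 * h') ≤ h * h := mul_self_le_mul_self (by positivity) h2
        nlinarith
      exact le_of_mul_le_mul_left e2 hh'
  | squeezeSquare s b' h' L hs ha h3 _ ih =>
    obtain ⟨hb', hh', -⟩ := id ih
    refine ih.change hs hs ha fun w E hE hT => ?_
    rw [div_self hs.ne']
    refine T.plane hE ?_ hT
    rw [le_div_iff₀ hh']
    have e2 : h' * (9 * h') ≤ h' * b' := by
      have e3 : h' * b' = s * s := by rw [ha]; ring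
      rw [e3]
      have h4 : (3 * h') * (3 * h') ≤ s * s := mul_self_le_mul_self (by positivity) h3
      nlinarith
    exact le_of_mul_le_mul_left e2 hh'
  | corner b h b' l k L hb hh hl hk h2 h3 hkl ha _ ih =>
    exact ih.corner hb hh hl hk h2 h3 hkl ha
  | reflect p m c c' L L' g g' T hp hT hc' hL' hg hg' hr _ ih =>
    obtain ⟨h1, h2⟩ := reflect_data hp hT hr
    exact Pool.Agent.J4H37.WN.sem_reflect hp hc' hL' hg hg' hT rfl h1 h2 ih

theorem whole_props {n : ℕ} {N : ℝ × (Fin n → ℝ)} (h : Whole N) :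
    0 < N.1 ∧ Pool.Agent.J4H37.WN.WNef 1 N.1 N.2 ∧ ∑ i, N.2 i ^ 2 = N.1 ^ 2 := by
  classical
  obtain ⟨c, L, g, hF, hg, rfl⟩ := h
  have hS := hF.sem
  obtain ⟨_, hc, _, hsq, _⟩ := id hS
  refine ⟨hc, Pool.Agent.J4H37.WN.WNef.of_sem one_pos (by simpa using hS) hg, ?_⟩
  have h2 := Pool.Agent.J4H37.WN.sum_img hg Finset.univ
    (fun l => Function.extend g L.get 0 l ^ 2)
  simp only [hg.extend_apply] at h2
  have h3 : ∑ l, Function.extend g L.get 0 l ^ 2 = ∑ j, L.get j ^ 2 := by
    rw [← h2]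
    refine Finset.sum_congr rfl fun l _ => ?_
    by_cases hl : ∃ j, g j = l
    · rw [if_pos (by simpa using hl)]
    · rw [if_neg (by simpa using hl), Function.extend_apply' _ _ _ hl]
      simp
  simp only
  rw [h3, Pool.Agent.J4H37.WN.sum_get' L fun t => t ^ 2, hsq]
  ring

theorem composed_replicate (p : ℕ) :
    Composed (((p + 1 : ℕ) : ℝ) * 1) 1 (List.replicate (p + 1) 1) := by
  induction p with
  | zero => simpa using Composed.square 1 one_pos
  | succ p ih =>
    have h1 := Composed.join _ _ _ _ _ ih (Composed.square 1 one_pos)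
    rw [List.replicate_succ' (n := p + 1)]
    have e : ((p + 1 : ℕ) : ℝ) * 1 + 1 = ((p + 1 + 1 : ℕ) : ℝ) * 1 := by
      push_cast
      ring
    rwa [e] at h1

theorem composed_start {n p : ℕ} (hp : 0 < p) {T : Finset (Fin n)} (hT : T.card = p) :
    ∃ (L : List ℝ) (g : Fin L.length → Fin n), Composed (p * (1 : ℝ)) 1 L ∧ Function.Injective g ∧
      Function.extend g L.get 0 = fun i => if i ∈ T then (1 : ℝ) else 0 := by
  classical
  obtain ⟨q, rfl⟩ : ∃ q, p = q + 1 := ⟨p - 1, by omega⟩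
  have hlen : (List.replicate (q + 1) (1 : ℝ)).length = q + 1 := List.length_replicate
  have hinj : Function.Injective fun j => T.orderEmbOfFin hT (Fin.cast hlen j) := by
    intro a b hab
    exact Fin.cast_injective _ ((T.orderEmbOfFin hT).injective hab)
  refine ⟨List.replicate (q + 1) 1, fun j => T.orderEmbOfFin hT (Fin.cast hlen j),
    composed_replicate q, hinj, ?_⟩
  funext l
  have hr := T.range_orderEmbOfFin hT
  by_cases hl : l ∈ T
  · rw [if_pos hl]
    have h2 : l ∈ Set.range (T.orderEmbOfFin hT) := by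
      rw [hr]
      exact hl
    obtain ⟨j, rfl⟩ := h2
    have h3 := hinj.extend_apply (List.replicate (q + 1) (1 : ℝ)).get 0 (Fin.cast hlen.symm j)
    simp only [Fin.cast_cast, Fin.cast_eq_self] at h3
    rw [h3]
    simp
  · rw [if_neg hl, Function.extend_apply']
    · rfl
    · rintro ⟨j, hj⟩
      apply hl
      have h2 : l ∈ Set.range (T.orderEmbOfFin hT) := ⟨_, hj⟩
      rw [hr] at h2
      exact h2

theorem composed_large {n p : ℕ} (hp : 5 ≤ p) (hn : p + 5 ≤ n) (K : ℕ) :
    ∃ (k : ℕ) (M : Fin n → ℕ) (L : List ℝ) (g : Fin L.length → Fin n), K < k ∧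
      Composed (p * (k : ℝ)) k L ∧ Function.Injective g ∧
      (Function.extend g L.get 0 = fun i => (M i : ℝ)) ∧
      Pool.Agent.J4H37.WN.WNef p (k : ℝ) (fun i => (M i : ℝ)) ∧ ∑ i, M i ^ 2 = p * k ^ 2 := by
  classical
  induction K with
  | zero =>
    obtain ⟨T, _, hT⟩ := Finset.exists_subset_card_eq (s := (Finset.univ : Finset (Fin n)))
      (n := p) (by rw [Finset.card_univ, Fintype.card_fin]; omega)
    obtain ⟨L, g, h1, h2, h3⟩ := composed_start (by omega) hT
    refine ⟨1, fun i => if i ∈ T then 1 else 0, L, g, one_pos, by simpa using h1, h2, ?_, ?_, ?_⟩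
    · rw [h3]
      funext i
      by_cases hi : i ∈ T
      · simp [hi]
      · simp [hi]
    · have h1 := Pool.Agent.J4H37.WN.WNef.base (p := p) (T := T) hT.le
      simpa using h1
    · simp only [ite_pow, one_pow, ne_eq, OfNat.ofNat_ne_zero, not_false_eq_true, zero_pow,
        mul_one]
      rw [Finset.sum_ite_mem, Finset.univ_inter, Finset.sum_const, smul_eq_mul, mul_one, hT]
  | succ K ih =>
    obtain ⟨k, M, L, g, hk, hF, hg, he, hN, hsq⟩ := ih
    obtain ⟨T, hT, hlt⟩ := Pool.Agent.J4H37.WN.exists_small (by omega) hp hn hsq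
    obtain ⟨k', M', e1, e2, hN', hsq'⟩ := hN.step_nat hsq hT
    have hkk : K + 1 < k' := by
      have h1 : ((∑ i ∈ T, M i : ℕ) : ℤ) < ((p * k : ℕ) : ℤ) := by exact_mod_cast hlt
      push_cast at h1
      have h2 : ((K + 1 : ℕ) : ℤ) < (k' : ℤ) := by
        rw [e1]
        push_cast
        have h3 : ((K : ℕ) : ℤ) < k := by exact_mod_cast hk
        omega
      exact_mod_cast h2
    obtain ⟨L', g', hg', hpos, he'⟩ := Pool.Agent.J4H37.WN.exists_list
      (fun i => (M' i : ℝ)) (fun i => Nat.cast_nonneg _)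
    refine ⟨k', M', L', g', hkk, ?_, hg', he', hN', hsq'⟩
    refine .reflect p n k k' L L' g g' T (by omega) hT ?_ hpos hg hg' ?_ hF
    · have : 0 < k' := by omega
      exact_mod_cast this
    · rw [he, he']
      have h3 := refl_nat hT e1 e2
      rw [mul_comm (k : ℝ), mul_comm (k' : ℝ)] at h3
      exact h3

theorem whole_of_weighted {n p : ℕ} (hp : 9 ≤ p) {c : ℝ} {L : List ℝ} {g : Fin L.length → Fin n}
    (hF : Composed (p * c) c L) (hg : Function.Injective g) :
    Whole (Real.sqrt p * c, Function.extend g L.get 0) := by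
  obtain ⟨_, hc, _⟩ := hF.sem
  have h3 : (3 : ℝ) ≤ Real.sqrt p := by
    rw [show (3 : ℝ) = Real.sqrt 9 by
      rw [show (9 : ℝ) = 3 ^ 2 by norm_num]
      exact (Real.sqrt_sq (by norm_num)).symm]
    exact Real.sqrt_le_sqrt (by exact_mod_cast hp)
  refine ⟨_, L, g, ?_, hg, rfl⟩
  refine .squeezeSquare _ (p * c) c L (by positivity) ?_ ?_ hF
  · have h4 : Real.sqrt p * Real.sqrt p = p := Real.mul_self_sqrt (Nat.cast_nonneg _)
    linear_combination c ^ 2 * h4
  · nlinarith

theorem carries_three {n : ℕ} {a b : ℝ × (Fin n → ℝ)} (h : Carries 3 a b) :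
    Pool.Agent.R355.ConeAct.Carries a b := by
  classical
  refine Relation.ReflTransGen.mono ?_ a b h
  clear h
  rintro a b ⟨T, hT, rfl⟩
  refine ⟨T.orderEmbOfFin hT, (T.orderEmbOfFin hT).injective, ?_⟩
  obtain ⟨i, hi⟩ : ∃ i : Fin 3 → Fin n, i = T.orderEmbOfFin hT := ⟨_, rfl⟩
  rw [← hi]
  have hinj : Function.Injective i := by
    rw [hi]
    exact (T.orderEmbOfFin hT).injective
  have hr : ∀ l, l ∈ T ↔ l = i 0 ∨ l = i 1 ∨ l = i 2 := by
    intro l
    have h1 := T.range_orderEmbOfFin hT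
    rw [← hi] at h1
    rw [← Finset.mem_coe, ← h1, Set.mem_range, Fin.exists_fin_succ, Fin.exists_fin_two]
    constructor
    · rintro (h | h | h)
      · exact Or.inl h.symm
      · exact Or.inr (Or.inl h.symm)
      · exact Or.inr (Or.inr h.symm)
    · rintro (h | h | h)
      · exact Or.inl h.symm
      · exact Or.inr (Or.inl h.symm)
      · exact Or.inr (Or.inr h.symm)
  have hsum : ∑ l ∈ T, a.2 l = a.2 (i 0) + a.2 (i 1) + a.2 (i 2) := by
    have h1 : T = Finset.univ.image i := by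
      ext l
      rw [hr, Finset.mem_image]
      simp [Fin.exists_fin_succ, eq_comm]
    rw [h1, Finset.sum_image (fun a _ b _ hab => hinj hab), Fin.sum_univ_three]
  have hc : Real.sqrt ((T.card : ℝ) - 2) = 1 := by
    rw [hT]
    norm_num
  unfold refl Pool.Agent.R355.ConeAct.refl
  rw [hc, cdot_ind, hsum]
  refine Prod.ext ?_ ?_
  · change a.1 + _ * (1 : ℝ) = _
    ring
  · funext l
    change a.2 l + _ * (if l ∈ T then (1 : ℝ) else 0) = a.2 l +
      (if l = i 0 ∨ l = i 1 ∨ l = i 2 then a.1 - a.2 (i 0) - a.2 (i 1) - a.2 (i 2) else 0)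
    by_cases hl : l ∈ T
    · rw [if_pos hl, if_pos ((hr l).1 hl)]
      ring
    · rw [if_neg hl, if_neg (fun h => hl ((hr l).2 h))]
      ring

theorem nef {n : ℕ} {P : Fin n → Fin 2 → ℂ}
    (hP : AlgebraicIndependent ℚ (fun ij : Fin n × Fin 2 => P ij.1 ij.2))
    {N : ℝ × (Fin n → ℝ)} (hN : IsRay N) :
    ∀ x ∈ Pool.Agent.R355.ConeAct.curvCone P, 0 ≤ Pool.Agent.R355.ConeAct.dot N x := by
  obtain ⟨m, N', τ, hW, hτ, hc⟩ := hN
  obtain ⟨_, h1, _⟩ := whole_props hW
  exact (Pool.Agent.R355.ConeAct.nef_carries hP (carries_three hc)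
    ((h1.restrict hτ).curv_one hP)).1

/-- Emptiness at all generic points over all fields of characteristic zero. -/
theorem empty {n : ℕ} {d : ℕ} {w : Fin n → ℕ} {N : ℝ × (Fin n → ℝ)} (hN : IsRay N)
    (h : cdot N (cl d w) < 0) : Pool.Agent.TH167.SH.chi d w ≤ 0 ∧
      ∃ F : MvPolynomial (Fin n × Fin 2) ℚ, F ≠ 0 ∧
      ∀ (K : Type) [Field K] [CharZero K] (P : Fin n → Fin 2 → K),
        MvPolynomial.aeval (fun ij : Fin n × Fin 2 => P ij.1 ij.2) F ≠ 0 →
        Module.finrank K ↥(Pool.Agent.W609.CR.VS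
          (fun j => Pool.Agent.W609.CR.aff (P j)) w d) = 0 := by
  obtain ⟨P0, hP0⟩ := Pool.Agent.J4H37.WN.exists_points n
  have h1 := Pool.Agent.J4H37.WN.nef_empty (nef hP0 hN) (d := d) (w := w) h
  rw [Pool.Agent.TH167.SH.sys_eq] at h1
  obtain ⟨g, F, hF, hF'⟩ := Pool.Agent.TH167.SH.dim_gen w d
  have h2 := hF' ℂ P0 (fun h0 => hF (hP0.eq_zero_of_aeval_eq_zero F h0))
  have h3 := Pool.Agent.TH167.SH.chi_le_dim P0 d w
  rw [h1, finrank_bot] at h2 h3
  refine ⟨by exact_mod_cast h3, F, hF, fun K _ _ P hP => ?_⟩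
  rw [hF' K P hP, ← h2]

theorem empty_general {n : ℕ} {d : ℕ} {w : Fin n → ℕ} {N : ℝ × (Fin n → ℝ)} (hN : IsRay N)
    (h : cdot N (cl d w) < 0) : chi d w ≤ 0 ∧ ForGeneral fun P => hZero P d w = 0 := by
  obtain ⟨h1, F, hF, hF'⟩ := empty hN h
  refine ⟨h1, F.map (algebraMap ℚ ℂ), Pool.Agent.TH167.SH.map_ne hF, fun P hP => ?_⟩
  rw [Pool.Agent.TH167.SH.evP_eval] at hP
  unfold hZero
  rw [Pool.Agent.TH167.SH.sys_eq, hF' ℂ P hP]
  rfl

theorem result (n : ℕ) (hn : 4 ≤ n) :
    -- (1) the classes composed of squares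
    ((∀ N : ℝ × (Fin n → ℝ), Whole N → cdot N N = 0 ∧ (∀ i, 0 ≤ N.2 i ∧ N.2 i ≤ N.1) ∧
        ∀ (L : Fin n → ℕ) (m d : ℕ), (∀ i, N.2 i = L i) → (d : ℝ) < m * N.1 →
          chi d (fun i => m * L i) ≤ 0 ∧ ForGeneral fun P => hZero P d (fun i => m * L i) = 0) ∧
      ∀ p : ℕ, 9 ≤ p → p + 5 ≤ n → ∀ K : ℕ, ∃ (k : ℕ) (L : Fin n → ℕ), K < k ∧
        (∀ i, L i ≤ k) ∧ Whole ((k : ℝ) * Real.sqrt p, fun i => (L i : ℝ))) ∧
    -- (2) nefness
    (∀ P : Fin n → Fin 2 → ℂ, AlgebraicIndependent ℚ (fun ij : Fin n × Fin 2 => P ij.1 ij.2) →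
      ∀ N : ℝ × (Fin n → ℝ), IsRay N → ∀ (G : MvPolynomial (Fin 3) ℂ) (e : ℕ)
        (u : Fin n → ℕ), Curve P G e u → 0 ≤ cdot N (cl e u)) ∧
    -- (3) the empty systems
    (∀ (N : ℝ × (Fin n → ℝ)) (d : ℕ) (w : Fin n → ℕ), IsRay N → cdot N (cl d w) < 0 →
      chi d w ≤ 0 ∧ ForGeneral fun P => hZero P d w = 0) ∧
    -- (4) the reduction
    ∀ (d : ℕ) (w : Fin n → ℕ), ForGeneral fun P =>
      hZero P d w = max 0 (chi d w) ∨
      (∃ (G : MvPolynomial (Fin 3) ℂ) (e : ℕ) (u : Fin n → ℕ), MinusOne P G e u ∧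
        inter d w e u ≤ -2) ∨
      ∃ (d'' : ℕ) (w'' : Fin n → ℕ) (k : ℕ) (G : Fin k → MvPolynomial (Fin 3) ℂ)
        (e : Fin k → ℕ) (u : Fin k → Fin n → ℕ) (d' : ℕ) (w' : Fin n → ℕ),
        Decomp P d w d'' w'' G e u (fun _ => 1) ∧
        Relation.ReflTransGen Quadratic (d'', w'') (d', w') ∧ Standard d' w' ∧
        hZero P d' w' = hZero P d w ∧ hZero P d' w' ≠ max 0 (chi d' w') ∧
        ∀ N, IsRay N → 0 ≤ cdot N (cl d' w') := by
  obtain ⟨r, rfl⟩ : ∃ r, n = r + 4 := ⟨n - 4, by omega⟩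
  refine ⟨⟨?_, fun p hp9 hpn K => ?_⟩, ?_, fun N d w hN h => empty_general hN h, ?_⟩
  · intro N hN
    obtain ⟨hpos, hW, hsq⟩ := whole_props hN
    have hs : ∑ i, N.2 i * N.2 i = N.1 * N.1 := by
      rw [← sq, ← hsq]
      exact Finset.sum_congr rfl fun i _ => by ring
    refine ⟨?_, fun i => ⟨hW.1 i, hW.le i⟩, fun L m d hL hd => ?_⟩
    · unfold cdot
      rw [hs, sub_self]
    · refine empty_general (N := N) ⟨_, N, id, hN, Function.injective_id,
        Relation.ReflTransGen.refl⟩ ?_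
      have h1 : cdot N (cl d (fun i => m * L i)) = N.1 * (d - m * N.1) := by
        unfold cdot cl
        simp only
        have h2 : ∑ i, N.2 i * ((m * L i : ℕ) : ℝ) = m * (N.1 * N.1) := by
          rw [← hs, Finset.mul_sum]
          refine Finset.sum_congr rfl fun i _ => ?_
          push_cast
          rw [← hL i]
          ring
        rw [h2]
        ring
      rw [h1]
      exact mul_neg_of_pos_of_neg hpos (by linarith)
  · obtain ⟨k, M, L, g, hk, hF, hg, he, hN, _⟩ := composed_large (n := r + 4) (p := p) (by omega)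
      hpn K
    refine ⟨k, M, hk, fun i => by exact_mod_cast hN.le i, ?_⟩
    have h1 := whole_of_weighted hp9 hF hg
    rwa [he, mul_comm] at h1
  · intro P hP N hN G e u hG
    exact nef hP hN _ (subset_closure (Submodule.subset_span (Or.inl ⟨G, e, u, hG, rfl⟩)))
  · intro d w
    obtain ⟨F, hF, hF'⟩ := Pool.Agent.Y536.SH.hh_full
      (Q := fun d' w' => ∃ N : ℝ × (Fin (r + 4) → ℝ), IsRay N ∧ cdot N (cl d' w') < 0)
      (fun {K} _ _ {P} hP d1 w1 _ hG => by
        obtain ⟨N, hN, hG⟩ := hG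
        obtain ⟨h1, F, hF, hF'⟩ := empty hN hG
        rw [Pool.Agent.TH442.NF.expDim_iff, hF' K P
          (fun h0 => hF (hP.eq_zero_of_aeval_eq_zero F h0)), max_eq_left h1]
        rfl) d w
    refine ⟨F.map (algebraMap ℚ ℂ), Pool.Agent.TH167.SH.map_ne hF, fun P hP => ?_⟩
    rw [Pool.Agent.TH167.SH.evP_eval] at hP
    by_cases hs : hZero P d w = max 0 (chi d w)
    · exact Or.inl hs
    · right
      have hsp := special_of_ne.1 hs
      rcases hF' ℂ P hP hsp with h | ⟨d', w', k, C, e, u, N, d1, w1, h1, h2, h3, h4, h5, h6⟩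
      · left
        exact Pool.Agent.TH167.SH.mspecial_curve ((Pool.Agent.TH167.SH.mspecial_conv P d w).2 h)
      · by_cases hN : ∃ a, 2 ≤ N a
        · left
          obtain ⟨a, ha⟩ := hN
          refine ⟨C a, e a, u a, Pool.Agent.TH167.SH.minusOne_iff.2 (h1.exc a), ?_⟩
          rw [Pool.Agent.TH167.SH.inter_eq, h1.neg a]
          omega
        · right
          push Not at hN
          have hN1 : N = fun _ => 1 := by
            funext a
            have := h1.pos a
            have := hN a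
            omega
          subst hN1
          refine ⟨d', w', k, C, e, u, d1, w1, Pool.Agent.TH167.SH.decomp_iff.2 h1,
            Pool.Agent.TH167.SH.chain_conv h2, h3, ?_, special_of_ne.2 h4,
            fun M hM => ?_⟩
          · unfold hZero
            rw [Pool.Agent.TH167.SH.sys_eq, Pool.Agent.TH167.SH.sys_eq, h5]
          · by_contra hcon
            exact h6 ⟨M, hM, not_le.1 hcon⟩

end Pool.Agent.Results.MP_70e04f_ag.ComposedReflections
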