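import Pool.Agent.J4H15.NE.Prop
import Pool.Agent.J4H15.NE.Main
import Pool.Agent.R355.NegOrb
import Pool.Agent.TH167.SH.Fam

/-!
# The number of exceptions to the Segre-Harbourne-Gimigliano-Hirschowitz conjecture

Let `s ≥ 4`. The set `E` of the classes of the irreducible curves `C` with `C ^ 2 < 0` other than `(-1)`-curves, and the
set `B` of the exceptions to the conjecture (the classes `(d; w)` whose `h⁰` is not the expected one although
`C D ≥ -1` for all `(-1)`-curves `C`), are the same for all very general configurations of `s` points. If `E` is not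
empty, then a positive proportion of all classes is in `B`: for some `A` at least `x ^ (s + 1) / A` of the classes with
`w i ≤ d ≤ x` for all `x ≥ A`. So if the conjecture holds for almost all classes (for `s` points), even for some
sequence of `x` only, then every irreducible curve of negative self-intersection is a `(-1)`-curve.

If `B` is not empty and `s ≥ 10` (for `s ≤ 9` the conjecture is known), then for some `A` at least `(x / A) ^ 4` elements of
`B` have degree at most `x`, for all `x ≥ A`. So there are no exceptions with `s` multiplicities as soon as their number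
is `o(x ^ 4)` along one sequence of `x`.

Proof. Let `C` be in `E` and `F = (s + 1) H - ∑ E i`, which has positive degree on every curve. For a suitable `a` and
`m ≥ 1` all classes `D = m (s + 1) (a C + F) + δ`, `0 ≤ δ ≤ m`, meet all `(-1)`-curves nonnegatively, and
`h⁰ (D) ≥ h⁰ (D - m (s + 1) a C) ≥ χ (D - m (s + 1) a C) > max (0, χ (D))`.
For the second part a standard exception has `3 d > ∑ w i` over some nine points: otherwise it is `(3 m; m, …, m)`, and a
component of such a curve would be a curve `(3 k; k, …, k)` of negative self-intersection, against SeparatedOrbits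
(MP_d3e5c7_ag). The translations of the affine Weyl group of the nine points give the other exceptions.
-/

set_option autoImplicit false

namespace Pool.Agent.Results.MP_70e04f_ag.NumberOfExceptions

open MvPolynomial Pool.Agent.TH167 Pool.Agent.TH167.SHDefs Pool.Agent.R355.NegOrb
open Pool.Agent.W609.CR (Ord aff)

theorem special_same {s : ℕ} {P Q : Fin s → Fin 2 → ℂ}
    (hP : AlgebraicIndependent ℚ (fun ij : Fin s × Fin 2 => P ij.1 ij.2))
    (hQ : AlgebraicIndependent ℚ (fun ij : Fin s × Fin 2 => Q ij.1 ij.2)) {d : ℕ} {w : Fin s → ℕ}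
    (h : Special P d w) : Special Q d w := by
  obtain ⟨g, F, hF, hg⟩ := SH.dim_gen w d
  have h1 := hg ℂ P fun h0 => hF (hP.eq_zero_of_aeval_eq_zero F h0)
  have h2 := hg ℂ Q fun h0 => hF (hQ.eq_zero_of_aeval_eq_zero F h0)
  rw [SH.special_conv] at h ⊢
  unfold SH.Special at *
  rw [h2, ← h1]
  exact h

theorem minusOne_same {s : ℕ} {P Q : Fin s → Fin 2 → ℂ}
    (hP : AlgebraicIndependent ℚ (fun ij : Fin s × Fin 2 => P ij.1 ij.2))
    (hQ : AlgebraicIndependent ℚ (fun ij : Fin s × Fin 2 => Q ij.1 ij.2))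
    {G : MvPolynomial (Fin 3) ℂ} {d : ℕ} {w : Fin s → ℕ}
    (h : MinusOne P G d w) : ∃ G', MinusOne Q G' d w := by
  obtain ⟨h1, h2, h3⟩ := h
  obtain ⟨g1, g2, g3⟩ := SH.curve_iff.1 h1
  obtain ⟨G', a1, a2, a3⟩ := exists_conj hP hQ g1 g2 g3 (Equiv.refl _)
  exact ⟨G', SH.curve_iff.2 ⟨a1, a2, a3⟩, h2, h3⟩

/-- The very general configurations and the two sets. Let `s ≥ 4`. There are a set `E` of classes, a set `B` of classes and
countably many nonzero polynomials `Z n` such that, for every configuration `P` of `s` points at which no `Z n`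
vanishes, `E` is the set of the classes of the irreducible curves of negative self-intersection which are not
`(-1)`-curves, and `B` is the set of the classes `(d; w)`, `d > 0`, whose linear system does not have the expected
dimension and which have intersection number at least `-1` with all `(-1)`-curves. If `E` is not empty, then there is `A`
such that for all `x ≥ A` at least `x ^ (s + 1) / A` elements of `B` satisfy `w i ≤ d ≤ x`. If `s ≥ 10` and `B` is not empty,
then there is `A` such that for all `x ≥ A` at least `(x / A) ^ 4` elements of `B` satisfy `w i ≤ d ≤ x`. -/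
theorem result (s : ℕ) (hs : 4 ≤ s) :
    ∃ (E B : Set (ℕ × (Fin s → ℕ))) (Z : ℕ → MvPolynomial (Fin s × Fin 2) ℂ), (∀ n, Z n ≠ 0) ∧
      (∀ P : Fin s → Fin 2 → ℂ,
        (∀ n, MvPolynomial.eval (fun ij : Fin s × Fin 2 => P ij.1 ij.2) (Z n) ≠ 0) →
        (∀ c : ℕ × (Fin s → ℕ), c ∈ E ↔ ∃ C : MvPolynomial (Fin 3) ℂ, Curve P C c.1 c.2 ∧
          ¬ MinusOne P C c.1 c.2 ∧ inter c.1 c.2 c.1 c.2 < 0) ∧
        ∀ c : ℕ × (Fin s → ℕ), c ∈ B ↔ 0 < c.1 ∧ Special P c.1 c.2 ∧
          ∀ (C : MvPolynomial (Fin 3) ℂ) (e : ℕ) (u : Fin s → ℕ), MinusOne P C e u →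
            -1 ≤ inter c.1 c.2 e u) ∧
      (E.Nonempty → ∃ A : ℕ, 1 ≤ A ∧ ∀ x : ℕ, A ≤ x → ∃ S : Finset (ℕ × (Fin s → ℕ)),
        (∀ c ∈ S, c ∈ B ∧ c.1 ≤ x ∧ ∀ j, c.2 j ≤ c.1) ∧ x ^ (s + 1) ≤ A * S.card) ∧
      (10 ≤ s → B.Nonempty → ∃ A : ℕ, 1 ≤ A ∧ ∀ x : ℕ, A ≤ x →
        ∃ S : Finset (ℕ × (Fin s → ℕ)),
          (∀ c ∈ S, c ∈ B ∧ c.1 ≤ x ∧ ∀ j, c.2 j ≤ c.1) ∧ x ^ 4 ≤ A ^ 4 * S.card) := by
  obtain ⟨Z, hZ, hfam⟩ := SH.exists_fam (Fin s × Fin 2)
  refine ⟨{c | ∃ P : Fin s → Fin 2 → ℂ,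
      AlgebraicIndependent ℚ (fun ij : Fin s × Fin 2 => P ij.1 ij.2) ∧
      ∃ C : MvPolynomial (Fin 3) ℂ, Curve P C c.1 c.2 ∧ ¬ MinusOne P C c.1 c.2 ∧
        inter c.1 c.2 c.1 c.2 < 0},
    {c | ∃ P : Fin s → Fin 2 → ℂ,
      AlgebraicIndependent ℚ (fun ij : Fin s × Fin 2 => P ij.1 ij.2) ∧
      0 < c.1 ∧ Special P c.1 c.2 ∧
          ∀ (C : MvPolynomial (Fin 3) ℂ) (e : ℕ) (u : Fin s → ℕ), MinusOne P C e u →
            -1 ≤ inter c.1 c.2 e u}, Z, hZ, ?_, ?_, ?_⟩
  · intro P hP0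
    have hP := (hfam _).1 hP0
    refine ⟨fun c => ⟨?_, fun h => ⟨P, hP, h⟩⟩, fun c => ⟨?_, fun h => ⟨P, hP, h⟩⟩⟩
    · rintro ⟨Q, hQ, C, h1, h2, h3⟩
      obtain ⟨g1, g2, g3⟩ := SH.curve_iff.1 h1
      obtain ⟨C', a1, a2, a3⟩ := exists_conj hQ hP g1 g2 g3 (Equiv.refl _)
      exact ⟨C', SH.curve_iff.2 ⟨a1, a2, a3⟩, fun h => h2 ⟨h1, h.self, h.canonical⟩, h3⟩
    · rintro ⟨Q, hQ, h0, h1, h2⟩
      refine ⟨h0, special_same hQ hP h1, fun C e u hC => ?_⟩
      obtain ⟨C', hC'⟩ := minusOne_same hP hQ hC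
      exact h2 C' e u hC'
  · rintro ⟨c, P, hP, C, h1, h2, h3⟩
    obtain ⟨g1, g2, g3⟩ := SH.curve_iff.1 h1
    obtain ⟨A, hA, hA'⟩ := Pool.Agent.J4H15.NE.positive (by omega) (SH.inj_of_alg hP) g1 g2 g3
      (fun h0 => h2 ⟨h1, by rw [SH.inter_eq, h0.1], by rw [SH.interK_eq, h0.2]⟩) h3
    refine ⟨A, hA, fun x hx => ?_⟩
    obtain ⟨S, hS, hcard⟩ := hA' x hx
    refine ⟨S, fun c hc => ?_, hcard⟩
    obtain ⟨b1, b2, b3, b4, b5⟩ := hS c hc
    refine ⟨⟨P, hP, b1, (SH.special_conv P c.1 c.2).2 b4, fun C e u hC => ?_⟩, b2, b3⟩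
    have h4 := b5 C e u (SH.minusOne_iff.1 hC)
    rw [SH.inter_eq]
    omega
  · rintro h10 ⟨c, P, hP, h0, h1, h2⟩
    obtain ⟨r, rfl⟩ : ∃ r, s = r + 4 := ⟨s - 4, by omega⟩
    obtain ⟨A, hA, hA'⟩ := Pool.Agent.J4H15.NE.none_or_many h10 hP
      ((SH.special_conv P c.1 c.2).1 h1) fun C e u hC => h2 C e u (SH.minusOne_iff.2 hC)
    refine ⟨A, hA, fun x hx => ?_⟩
    obtain ⟨S, hS, hcard⟩ := hA' x hx
    refine ⟨S, fun c hc => ?_, hcard⟩
    obtain ⟨⟨b1, b2, b3, b4⟩, b5⟩ := hS c hc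
    refine ⟨⟨P, hP, b1, (SH.special_conv P c.1 c.2).2 b3, fun C e u hC => ?_⟩, b5, b2⟩
    have h4 := b4 C e u (SH.minusOne_iff.1 hC)
    rw [SH.inter_eq]
    omega

end Pool.Agent.Results.MP_70e04f_ag.NumberOfExceptions
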