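import Mathlib
import Pool.Agent.J4H37.WN.Comp
import Pool.Agent.J4H37.WN.Ray
import Pool.Agent.Y536.SH.Full

set_option autoImplicit false

/-!
# General points of the plane and special points of the weighted planes

Let `t ≥ 9` be a real number. If for some points `Q i` of `ℂ ^ 2`, special ones allowed, no nonzero
polynomial `∑ c_{a b} x ^ a y ^ b` with `a + t b ≤ √t d` on its support has multiplicity `≥ w i` at
`Q i` for all `i`, then the linear system `d H - ∑ w i E i` on the blow-up of the plane at general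
points is empty and `χ ≤ 0`, as SHGH predicts. Hence every inequality `∑ L i w i ≤ c d` for the
multiplicities of such polynomials gives a nef class `c H - ∑ L i E i` at general points, and with
it all classes obtained by reflections, and in the reduction of SHGH to standard systems `D'` only
those are left which are nonempty on all weighted planes at all points `Q`.

Proof: the points `(ε Q i 0, ξ (ε Q i 0) + ε ^ t Q i 1)` lie near a germ of a curve `y = ξ (x)` with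
independent coefficients, on which the quasimonomial valuations with weights `1, t` are minimal
(starting library); the limits of the forms of degree `d` are polynomials with `a + t b ≤ √t d`.
-/

namespace Pool.Agent.Results.MP_70e04f_ag.WeightedPlanes

open MvPolynomial Pool.Agent.TH167.SHDefs

/-- `h⁰ (D)` for the class `D = d H - ∑ w i E i`. -/
noncomputable def hZero {n : ℕ} (P : Fin n → Fin 2 → ℂ) (d : ℕ) (w : Fin n → ℕ) : ℤ :=
  (Module.finrank ℂ ↥(sys P d w) : ℤ)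

/-- The Euler characteristic. -/
def chi {n : ℕ} (d : ℕ) (w : Fin n → ℕ) : ℤ :=
  ((d + 2).choose 2 : ℤ) - ∑ i, ((w i + 1).choose 2 : ℤ)

/-- The property holds for all `n`-tuples of points outside some hypersurface. -/
def ForGeneral {n : ℕ} (p : (Fin n → Fin 2 → ℂ) → Prop) : Prop :=
  ∃ F : MvPolynomial (Fin n × Fin 2) ℂ, F ≠ 0 ∧ ∀ P : Fin n → Fin 2 → ℂ,
    eval (fun ij : Fin n × Fin 2 => P ij.1 ij.2) F ≠ 0 → p P

/-- The class `(d; w)` is standard. -/
def Standard {n : ℕ} (d : ℕ) (w : Fin n → ℕ) : Prop :=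
  ∀ i j l : Fin n, i ≠ j → i ≠ l → j ≠ l → w i + w j + w l ≤ d

/-- `h` is a nonzero polynomial with `a + t b ≤ √t d` for all exponents `(a, b)` in its support, and
it has multiplicity `≥ w i` at `Q i` for all `i`. -/
def Weighted {n : ℕ} (t : ℝ) (Q : Fin n → Fin 2 → ℂ) (d : ℕ) (w : Fin n → ℕ)
    (h : MvPolynomial (Fin 2) ℂ) : Prop :=
  h ≠ 0 ∧ (∀ s ∈ h.support, (s 0 : ℝ) + t * (s 1 : ℝ) ≤ Real.sqrt t * d) ∧
    ∀ i, h ∈ (Ideal.span {X 0 - C (Q i 0), X 1 - C (Q i 1)} :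
      Ideal (MvPolynomial (Fin 2) ℂ)) ^ w i

/-- The reflection of the class `a = (d; w)`, `d H - ∑ w l E l`, in the class
`H - E (i 0) - E (i 1) - E (i 2)`: with `δ = d - w (i 0) - w (i 1) - w (i 2)`, the numbers
`d`, `w (i 0)`, `w (i 1)`, `w (i 2)` are increased by `δ`. -/
def reflect {n : ℕ} (i : Fin 3 → Fin n) (a : ℝ × (Fin n → ℝ)) : ℝ × (Fin n → ℝ) :=
  (a.1 + (a.1 - a.2 (i 0) - a.2 (i 1) - a.2 (i 2)),
    fun l => a.2 l + if l = i 0 ∨ l = i 1 ∨ l = i 2 then a.1 - a.2 (i 0) - a.2 (i 1) - a.2 (i 2)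
      else 0)

/-- The intersection number of the class `N` with the class `(d; w)`. -/
def dot {n : ℕ} (N : ℝ × (Fin n → ℝ)) (d : ℕ) (w : Fin n → ℕ) : ℝ :=
  N.1 * d - ∑ i, N.2 i * (w i : ℝ)

/-- `N` is obtained by finitely many reflections from a class `(c; L)` with `L ≥ 0`, such that for
some real `t ≥ 9` and points `Q i` all the above polynomials satisfy `∑ L i w i ≤ c d`. -/
def IsNef {n : ℕ} (N : ℝ × (Fin n → ℝ)) : Prop :=
  ∃ (t : ℝ) (Q : Fin n → Fin 2 → ℂ) (N0 : ℝ × (Fin n → ℝ)), 9 ≤ t ∧ (∀ i, 0 ≤ N0.2 i) ∧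
    (∀ (d : ℕ) (w : Fin n → ℕ) (h : MvPolynomial (Fin 2) ℂ), Weighted t Q d w h →
      0 ≤ dot N0 d w) ∧
    Relation.ReflTransGen
      (fun a b : ℝ × (Fin n → ℝ) => ∃ i : Fin 3 → Fin n, Function.Injective i ∧ b = reflect i a)
      N0 N

theorem special_of_ne {n : ℕ} {P : Fin n → Fin 2 → ℂ} {d : ℕ} {w : Fin n → ℕ} :
    hZero P d w ≠ max 0 (chi d w) ↔ Pool.Agent.TH167.SH.Special P d w := by
  unfold hZero Pool.Agent.TH167.SH.Special
  rw [Pool.Agent.TH167.SH.sys_eq]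
  exact Iff.rfl

/-- Emptiness at algebraically independent points over all fields of characteristic zero. -/
theorem empty_gen {n : ℕ} {t : ℝ} (ht : 9 ≤ t) {Q : Fin n → Fin 2 → ℂ} {d : ℕ} {w : Fin n → ℕ}
    (h : ∀ f, ¬ Weighted t Q d w f) {K : Type} [Field K] [CharZero K] {P : Fin n → Fin 2 → K}
    (hP : AlgebraicIndependent ℚ (fun ij : Fin n × Fin 2 => P ij.1 ij.2)) :
    Module.finrank K ↥(sys P d w) = 0 := by
  obtain ⟨P0, hP0⟩ := Pool.Agent.J4H37.WN.special_real ht (d := d) w Q (by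
    intro f hf0 hf
    by_contra hcon
    push Not at hcon
    refine h f ⟨hf0, fun s hs => ?_, hcon⟩
    have h1 := hf s hs
    rw [mul_comm (d : ℝ)] at h1
    exact h1)
  have hch : CharZero (FractionRing (Polynomial ℂ)) :=
    charZero_of_injective_algebraMap
      (IsFractionRing.injective (Polynomial ℂ) (FractionRing (Polynomial ℂ)))
  exact Pool.Agent.J4H37.WN.empty_spread hP0 hP

theorem empty {n : ℕ} {t : ℝ} (ht : 9 ≤ t) {Q : Fin n → Fin 2 → ℂ} {d : ℕ} {w : Fin n → ℕ}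
    (h : ∀ f, ¬ Weighted t Q d w f) : Pool.Agent.TH167.SH.chi d w ≤ 0 ∧
      ∃ F : MvPolynomial (Fin n × Fin 2) ℚ, F ≠ 0 ∧
      ∀ (K : Type) [Field K] [CharZero K] (P : Fin n → Fin 2 → K),
        MvPolynomial.aeval (fun ij : Fin n × Fin 2 => P ij.1 ij.2) F ≠ 0 →
        Module.finrank K ↥(Pool.Agent.W609.CR.VS
          (fun j => Pool.Agent.W609.CR.aff (P j)) w d) = 0 := by
  obtain ⟨P0, hP0⟩ := Pool.Agent.J4H37.WN.exists_points n
  have h1 := empty_gen ht h hP0
  rw [Pool.Agent.TH167.SH.sys_eq] at h1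
  obtain ⟨g, F, hF, hF'⟩ := Pool.Agent.TH167.SH.dim_gen w d
  have h2 := hF' ℂ P0 (fun h0 => hF (hP0.eq_zero_of_aeval_eq_zero F h0))
  have h3 := Pool.Agent.TH167.SH.chi_le_dim P0 d w
  rw [h1] at h2 h3
  refine ⟨by exact_mod_cast h3, F, hF, fun K _ _ P hP => ?_⟩
  rw [hF' K P hP, ← h2]

theorem empty_general {n : ℕ} {t : ℝ} (ht : 9 ≤ t) {Q : Fin n → Fin 2 → ℂ} {d : ℕ}
    {w : Fin n → ℕ} (h : ∀ f, ¬ Weighted t Q d w f) :
    chi d w ≤ 0 ∧ ForGeneral fun P => hZero P d w = 0 := by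
  obtain ⟨h1, F, hF, hF'⟩ := empty ht h
  refine ⟨h1, F.map (algebraMap ℚ ℂ), Pool.Agent.TH167.SH.map_ne hF, fun P hP => ?_⟩
  rw [Pool.Agent.TH167.SH.evP_eval] at hP
  unfold hZero
  rw [Pool.Agent.TH167.SH.sys_eq, hF' ℂ P hP]
  rfl

/-- The classes are nef at algebraically independent points. -/
theorem nef {n : ℕ} {P : Fin n → Fin 2 → ℂ}
    (hP : AlgebraicIndependent ℚ (fun ij : Fin n × Fin 2 => P ij.1 ij.2))
    {N : ℝ × (Fin n → ℝ)} (hN : IsNef N) :
    ∀ x ∈ Pool.Agent.R355.ConeAct.curvCone P, 0 ≤ Pool.Agent.R355.ConeAct.dot N x := by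
  classical
  obtain ⟨t, Q, N0, ht, hL, h, hc⟩ := hN
  refine (Pool.Agent.R355.ConeAct.nef_carries hP hc ?_).1
  refine Pool.Agent.R355.ConeAct.nef_of_gen ?_
  rintro x (⟨G, d, w, hG, rfl⟩ | ⟨j, rfl⟩)
  · by_contra hcon
    have h1 : ∀ f, ¬ Weighted t Q d w f := fun f hf => hcon (h d w f hf)
    have h2 := empty_gen ht h1 hP
    have hfin := Pool.Agent.W609.CR.vs_fin (fun j => Pool.Agent.W609.CR.aff (P j)) w d
    have h3 : G ∈ sys P d w := by
      unfold Pool.Agent.TH167.SHDefs.sys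
      rw [Submodule.mem_inf, Submodule.restrictScalars_mem, Ideal.mem_iInf]
      exact ⟨hG.homogeneous, fun i => (hG.mult i).1⟩
    rw [Pool.Agent.TH167.SH.sys_eq] at h2 h3
    rw [Submodule.finrank_eq_zero] at h2
    rw [h2] at h3
    exact hG.irreducible.ne_zero h3
  · unfold Pool.Agent.R355.ConeAct.dot
    simp only [mul_zero, zero_sub]
    rw [Finset.sum_eq_single j]
    · rw [Pi.single_eq_same]
      have : 0 ≤ N0.2 j := hL j
      linarith
    · intro l _ hl
      rw [Pi.single_eq_of_ne hl, mul_zero]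
    · intro h
      exact absurd (Finset.mem_univ j) h

/-- Emptiness of the systems negative against one of the classes. -/
theorem nef_empty {n : ℕ} {d : ℕ} {w : Fin n → ℕ} {N : ℝ × (Fin n → ℝ)} (hN : IsNef N)
    (h : dot N d w < 0) : Pool.Agent.TH167.SH.chi d w ≤ 0 ∧
      ∃ F : MvPolynomial (Fin n × Fin 2) ℚ, F ≠ 0 ∧
      ∀ (K : Type) [Field K] [CharZero K] (P : Fin n → Fin 2 → K),
        MvPolynomial.aeval (fun ij : Fin n × Fin 2 => P ij.1 ij.2) F ≠ 0 →
        Module.finrank K ↥(Pool.Agent.W609.CR.VS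
          (fun j => Pool.Agent.W609.CR.aff (P j)) w d) = 0 := by
  obtain ⟨P0, hP0⟩ := Pool.Agent.J4H37.WN.exists_points n
  have h1 := Pool.Agent.J4H37.WN.nef_empty (nef hP0 hN) (d := d) (w := w) h
  rw [Pool.Agent.TH167.SH.sys_eq] at h1
  obtain ⟨g, F, hF, hF'⟩ := Pool.Agent.TH167.SH.dim_gen w d
  have h2 := hF' ℂ P0 (fun h0 => hF (hP0.eq_zero_of_aeval_eq_zero F h0))
  have h3 := Pool.Agent.TH167.SH.chi_le_dim P0 d w
  rw [h1, finrank_bot] at h2 h3
  refine ⟨by exact_mod_cast h3, F, hF, fun K _ _ P hP => ?_⟩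
  rw [hF' K P hP, ← h2]

theorem result (n : ℕ) (hn : 4 ≤ n) :
    -- (1) comparison
    (∀ (t : ℝ) (Q : Fin n → Fin 2 → ℂ) (d : ℕ) (w : Fin n → ℕ), 9 ≤ t →
      (∀ h, ¬ Weighted t Q d w h) → chi d w ≤ 0 ∧ ForGeneral fun P => hZero P d w = 0) ∧
    -- (2) nefness
    (∀ N : ℝ × (Fin n → ℝ), IsNef N →
      (∀ P : Fin n → Fin 2 → ℂ, AlgebraicIndependent ℚ (fun ij : Fin n × Fin 2 => P ij.1 ij.2) →
        ∀ (G : MvPolynomial (Fin 3) ℂ) (e : ℕ) (u : Fin n → ℕ), Curve P G e u →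
          0 ≤ dot N e u) ∧
      ∀ (d : ℕ) (w : Fin n → ℕ), dot N d w < 0 →
        chi d w ≤ 0 ∧ ForGeneral fun P => hZero P d w = 0) ∧
    -- (3) the reduction
    ∀ (d : ℕ) (w : Fin n → ℕ), ForGeneral fun P =>
      hZero P d w = max 0 (chi d w) ∨
      (∃ (G : MvPolynomial (Fin 3) ℂ) (e : ℕ) (u : Fin n → ℕ), MinusOne P G e u ∧
        inter d w e u ≤ -2) ∨
      ∃ (d'' : ℕ) (w'' : Fin n → ℕ) (k : ℕ) (G : Fin k → MvPolynomial (Fin 3) ℂ)
        (e : Fin k → ℕ) (u : Fin k → Fin n → ℕ) (d' : ℕ) (w' : Fin n → ℕ),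
        Decomp P d w d'' w'' G e u (fun _ => 1) ∧
        Relation.ReflTransGen Quadratic (d'', w'') (d', w') ∧ Standard d' w' ∧
        hZero P d' w' = hZero P d w ∧ hZero P d' w' ≠ max 0 (chi d' w') ∧
        (∀ (t : ℝ) (Q : Fin n → Fin 2 → ℂ), 9 ≤ t → ∃ h, Weighted t Q d' w' h) ∧
        ∀ N, IsNef N → 0 ≤ dot N d' w' := by
  obtain ⟨r, rfl⟩ : ∃ r, n = r + 4 := ⟨n - 4, by omega⟩
  refine ⟨fun t Q d w ht h => empty_general ht h, fun N hN => ⟨?_, ?_⟩, ?_⟩
  · intro P hP G e u hG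
    exact nef hP hN _ (subset_closure (Submodule.subset_span (Or.inl ⟨G, e, u, hG, rfl⟩)))
  · intro d w hd
    obtain ⟨h1, F, hF, hF'⟩ := nef_empty hN hd
    refine ⟨h1, F.map (algebraMap ℚ ℂ), Pool.Agent.TH167.SH.map_ne hF, fun P hP => ?_⟩
    rw [Pool.Agent.TH167.SH.evP_eval] at hP
    unfold hZero
    rw [Pool.Agent.TH167.SH.sys_eq, hF' ℂ P hP]
    rfl
  · intro d w
    obtain ⟨F, hF, hF'⟩ := Pool.Agent.Y536.SH.hh_full
      (Q := fun d' w' => (∃ (t : ℝ) (Q : Fin (r + 4) → Fin 2 → ℂ), 9 ≤ t ∧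
          ∀ h, ¬ Weighted t Q d' w' h) ∨
        ∃ N : ℝ × (Fin (r + 4) → ℝ), IsNef N ∧ dot N d' w' < 0)
      (fun {K} _ _ {P} hP d1 w1 _ hG => by
        have h0 : Pool.Agent.TH167.SH.chi d1 w1 ≤ 0 ∧
            ∃ F : MvPolynomial (Fin (r + 4) × Fin 2) ℚ, F ≠ 0 ∧
            ∀ (K : Type) [Field K] [CharZero K] (P : Fin (r + 4) → Fin 2 → K),
              MvPolynomial.aeval (fun ij : Fin (r + 4) × Fin 2 => P ij.1 ij.2) F ≠ 0 →
              Module.finrank K ↥(Pool.Agent.W609.CR.VS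
                (fun j => Pool.Agent.W609.CR.aff (P j)) w1 d1) = 0 := by
          rcases hG with ⟨t, Q, ht, h⟩ | ⟨N, hN, h⟩
          · exact empty ht h
          · exact nef_empty hN h
        obtain ⟨h1, F, hF, hF'⟩ := h0
        rw [Pool.Agent.TH442.NF.expDim_iff, hF' K P
          (fun h0 => hF (hP.eq_zero_of_aeval_eq_zero F h0)), max_eq_left h1]
        rfl) d w
    refine ⟨F.map (algebraMap ℚ ℂ), Pool.Agent.TH167.SH.map_ne hF, fun P hP => ?_⟩
    rw [Pool.Agent.TH167.SH.evP_eval] at hP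
    by_cases hs : hZero P d w = max 0 (chi d w)
    · exact Or.inl hs
    · right
      have hsp := special_of_ne.1 hs
      rcases hF' ℂ P hP hsp with h | ⟨d', w', k, C, e, u, N, d1, w1, h1, h2, h3, h4, h5, h6⟩
      · left
        exact Pool.Agent.TH167.SH.mspecial_curve ((Pool.Agent.TH167.SH.mspecial_conv P d w).2 h)
      · by_cases hN : ∃ a, 2 ≤ N a
        · left
          obtain ⟨a, ha⟩ := hN
          refine ⟨C a, e a, u a, Pool.Agent.TH167.SH.minusOne_iff.2 (h1.exc a), ?_⟩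
          rw [Pool.Agent.TH167.SH.inter_eq, h1.neg a]
          omega
        · right
          push Not at hN
          have hN1 : N = fun _ => 1 := by
            funext a
            have := h1.pos a
            have := hN a
            omega
          subst hN1
          refine ⟨d', w', k, C, e, u, d1, w1, Pool.Agent.TH167.SH.decomp_iff.2 h1,
            Pool.Agent.TH167.SH.chain_conv h2, h3, ?_, special_of_ne.2 h4,
            fun t Q ht => ?_, fun M hM => ?_⟩
          · unfold hZero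
            rw [Pool.Agent.TH167.SH.sys_eq, Pool.Agent.TH167.SH.sys_eq, h5]
          · by_contra hcon
            exact h6 (Or.inl ⟨t, Q, ht, fun h hh => hcon ⟨h, hh⟩⟩)
          · by_contra hcon
            exact h6 (Or.inr ⟨M, hM, not_le.1 hcon⟩)

end Pool.Agent.Results.MP_70e04f_ag.WeightedPlanes
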